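import Mathlib

/-!
# Project ZU (MP_79ce01_nt): one Graeffe step for the mean of the logarithm (HALF)
-/

namespace Pool.H23.ZU

open Real MeasureTheory Metric

/-- one Graeffe step -/
def S_HALF : Prop := ∀ T : ℂ → ℝ, ContinuousOn T (sphere 0 1) → (∀ z, ‖z‖ = 1 → 0 < T z) →
  ∀ R : ℂ → ℝ, ContinuousOn R (sphere 0 1) → (∀ z, ‖z‖ = 1 → R (z ^ 2) = T z * T (-z)) →
  2 * Real.circleAverage (fun z => Real.log (T z)) 0 1 =
    Real.circleAverage (fun z => Real.log (R z)) 0 1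

lemma cm_norm (θ : ℝ) : ‖circleMap 0 1 θ‖ = 1 := by
  rw [norm_circleMap_zero, abs_one]

lemma cm_mem (θ : ℝ) : circleMap 0 1 θ ∈ sphere (0 : ℂ) 1 := by
  rw [mem_sphere_zero_iff_norm]; exact cm_norm θ

lemma cm_eq (θ : ℝ) : circleMap 0 1 θ = Complex.exp (θ * Complex.I) := by
  simp [circleMap]

lemma cm_sq (θ : ℝ) : circleMap 0 1 (2 * θ) = circleMap 0 1 θ ^ 2 := by
  rw [cm_eq, cm_eq, ← Complex.exp_nat_mul]
  congr 1
  push_cast
  ring

lemma cm_pi (θ : ℝ) : circleMap 0 1 (θ + π) = -circleMap 0 1 θ := by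
  rw [cm_eq, cm_eq]
  push_cast
  rw [add_mul, Complex.exp_add, Complex.exp_pi_mul_I]
  ring

lemma cont_log {T : ℂ → ℝ} (hT : ContinuousOn T (sphere 0 1)) (h0 : ∀ z, ‖z‖ = 1 → 0 < T z) :
    Continuous fun θ : ℝ => Real.log (T (circleMap 0 1 θ)) := by
  have h1 : Continuous fun θ : ℝ => T (circleMap 0 1 θ) :=
    hT.comp_continuous (continuous_circleMap 0 1) cm_mem
  exact h1.log fun θ => (h0 _ (cm_norm θ)).ne'

lemma per_log (T : ℂ → ℝ) :
    Function.Periodic (fun θ : ℝ => Real.log (T (circleMap 0 1 θ))) (2 * π) := by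
  intro θ
  simp only [periodic_circleMap 0 1 θ]

theorem HALF : S_HALF := by
  intro T hT hT0 R hR hRT
  have hR0 : ∀ z, ‖z‖ = 1 → 0 < R z := by
    intro z hz
    obtain ⟨w, hw⟩ : ∃ w : ℂ, z = w ^ 2 := by
      obtain ⟨w, hw⟩ := IsAlgClosed.exists_pow_nat_eq z (n := 2) (by norm_num)
      exact ⟨w, hw.symm⟩
    have hw1 : ‖w‖ = 1 := by
      have h1 : ‖w‖ ^ 2 = 1 := by rw [← norm_pow, ← hw, hz]
      nlinarith [norm_nonneg w]
    rw [hw, hRT w hw1]
    exact mul_pos (hT0 _ hw1) (hT0 _ (by rw [norm_neg, hw1]))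
  have ct := cont_log hT hT0
  have cr := cont_log hR hR0
  have h1 : ∀ θ : ℝ, Real.log (R (circleMap 0 1 (2 * θ))) =
      Real.log (T (circleMap 0 1 θ)) + Real.log (T (circleMap 0 1 (θ + π))) := by
    intro θ
    rw [cm_sq, hRT _ (cm_norm θ), cm_pi]
    exact Real.log_mul (hT0 _ (cm_norm θ)).ne' (hT0 _ (by rw [norm_neg]; exact cm_norm θ)).ne'
  have h2 : ∫ θ in (0 : ℝ)..2 * π, Real.log (R (circleMap 0 1 (2 * θ))) =
      ∫ θ in (0 : ℝ)..2 * π, Real.log (R (circleMap 0 1 θ)) := by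
    rw [intervalIntegral.integral_comp_mul_left
      (fun x => Real.log (R (circleMap 0 1 x))) (two_ne_zero)]
    rw [mul_zero, ← intervalIntegral.integral_add_adjacent_intervals
      (cr.intervalIntegrable 0 (2 * π)) (cr.intervalIntegrable (2 * π) (2 * (2 * π)))]
    have h3 := (per_log R).intervalIntegral_add_eq (2 * π) 0
    rw [zero_add, show 2 * π + 2 * π = 2 * (2 * π) by ring] at h3
    rw [h3, smul_eq_mul]
    ring
  have h4 : ∫ θ in (0 : ℝ)..2 * π, Real.log (T (circleMap 0 1 (θ + π))) =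
      ∫ θ in (0 : ℝ)..2 * π, Real.log (T (circleMap 0 1 θ)) := by
    rw [intervalIntegral.integral_comp_add_right (fun x => Real.log (T (circleMap 0 1 x)))]
    have h3 := (per_log T).intervalIntegral_add_eq π 0
    rw [zero_add] at h3
    rw [zero_add, add_comm (2 * π) π]
    exact h3
  simp only [Real.circleAverage_def, smul_eq_mul]
  rw [← h2]
  simp only [h1]
  have ct2 : Continuous fun θ : ℝ => Real.log (T (circleMap 0 1 (θ + π))) :=
    ct.comp (continuous_id.add continuous_const)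
  rw [intervalIntegral.integral_add (ct.intervalIntegrable _ _) (ct2.intervalIntegrable _ _), h4]
  ring

end Pool.H23.ZU
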